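import Pool.Agent.Q129.LNC.Core

set_option autoImplicit false

open Set Metric Filter Topology

namespace Pool.Agent.Q129.LNC

variable {V : Type*} [NormedAddCommGroup V] [NormedSpace ℝ V]

theorem dn_pos {E : Set V} (hE : IsClosed E) (h0 : (0 : V) ∉ E) {w : V} (hw : w ∈ E) :
    0 < dn E w := by
  refine lt_of_le_of_ne (dn_nonneg _ _) fun h => h0 ?_
  have := dn_spec hE hw 0 ⟨h ▸ le_rfl, zero_le_one⟩
  simpa using this

/-- Local midpoint concavity of `1 / dn` along a segment of `E`, when `0 ∉ E`. -/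
theorem local_mid {E : Set V} (hE : IsClosed E) (H : Loc E) (h0 : (0 : V) ∉ E) {x y : V}
    (hb : ∀ u ∈ Icc (0 : ℝ) 1, x + u • (y - x) ∈ E) {u₀ : ℝ} (hu₀ : u₀ ∈ Ioo (0 : ℝ) 1) :
    ∃ δ > 0, ∀ t ∈ Ioo (0 : ℝ) δ, u₀ - t ∈ Icc (0 : ℝ) 1 ∧ u₀ + t ∈ Icc (0 : ℝ) 1 ∧
      ((dn E (x + (u₀ - t) • (y - x)))⁻¹ + (dn E (x + (u₀ + t) • (y - x)))⁻¹) / 2
        ≤ (dn E (x + u₀ • (y - x)))⁻¹ := by
  set b : ℝ → V := fun u => x + u • (y - x) with hbdef
  set μ : ℝ → ℝ := fun u => dn E (b u) with hμ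
  have hu₀I : u₀ ∈ Icc (0 : ℝ) 1 := ⟨hu₀.1.le, hu₀.2.le⟩
  have hpos : ∀ u ∈ Icc (0 : ℝ) 1, 0 < μ u := fun u hu => dn_pos hE h0 (hb u hu)
  have hmem : ∀ u ∈ Icc (0 : ℝ) 1, μ u • b u ∈ E := fun u hu =>
    dn_spec hE (hb u hu) _ ⟨le_rfl, dn_le_one (hb u hu)⟩
  obtain ⟨r, hr, hconv⟩ := stuck_convex H (hmem u₀ hu₀I) (stuck_dn hE (hb u₀ hu₀I) (hpos u₀ hu₀I))
  have hcont : ContinuousAt (fun u => μ u • b u) u₀ := by
    have h1 : ContinuousAt μ u₀ :=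
      (dn_continuousOn hE H hb).continuousAt (Icc_mem_nhds hu₀.1 hu₀.2)
    have h2 : Continuous b := by simp only [hbdef]; fun_prop
    exact h1.smul h2.continuousAt
  have hev : ∀ᶠ u in 𝓝 u₀, μ u • b u ∈ ball (μ u₀ • b u₀) r :=
    hcont.tendsto (ball_mem_nhds _ hr)
  obtain ⟨δ, hδ, hδ2⟩ := Metric.eventually_nhds_iff.1 hev
  refine ⟨min δ (min u₀ (1 - u₀)), lt_min hδ (lt_min hu₀.1 (by linarith [hu₀.2])), ?_⟩
  intro t ht
  have ht1 : t < δ := ht.2.trans_le (min_le_left _ _)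
  have ht2 : t < u₀ := ht.2.trans_le ((min_le_right _ _).trans (min_le_left _ _))
  have ht3 : t < 1 - u₀ := ht.2.trans_le ((min_le_right _ _).trans (min_le_right _ _))
  have hI1 : u₀ - t ∈ Icc (0 : ℝ) 1 := ⟨by linarith, by linarith [hu₀.2, ht.1]⟩
  have hI2 : u₀ + t ∈ Icc (0 : ℝ) 1 := ⟨by linarith [hu₀.1, ht.1], by linarith⟩
  refine ⟨hI1, hI2, ?_⟩
  have hm1 : μ (u₀ - t) • b (u₀ - t) ∈ ball (μ u₀ • b u₀) r ∩ E :=
    ⟨hδ2 (by rw [Real.dist_eq]; rw [abs_lt]; constructor <;> linarith [ht.1]), hmem _ hI1⟩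
  have hm2 : μ (u₀ + t) • b (u₀ + t) ∈ ball (μ u₀ • b u₀) r ∩ E :=
    ⟨hδ2 (by rw [Real.dist_eq]; rw [abs_lt]; constructor <;> linarith [ht.1]), hmem _ hI2⟩
  set A := μ (u₀ - t) with hA
  set B := μ (u₀ + t) with hB
  have hA0 : 0 < A := hpos _ hI1
  have hB0 : 0 < B := hpos _ hI2
  have hAB : 0 < A + B := by linarith
  set l : ℝ := 2 * A * B / (A + B) with hl
  have hl0 : 0 < l := by positivity
  have hcomb : (B / (A + B)) • A • b (u₀ - t) + (A / (A + B)) • B • b (u₀ + t) = l • b u₀ := by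
    simp only [hbdef, smul_add, smul_smul]
    have e1 : B / (A + B) * A + A / (A + B) * B = l := by rw [hl]; field_simp; ring
    have e2 : B / (A + B) * (A * (u₀ - t)) + A / (A + B) * (B * (u₀ + t)) = l * u₀ := by
      rw [hl]; field_simp; ring
    calc (B / (A + B) * A) • x + (B / (A + B) * (A * (u₀ - t))) • (y - x) +
          ((A / (A + B) * B) • x + (A / (A + B) * (B * (u₀ + t))) • (y - x))
        = (B / (A + B) * A + A / (A + B) * B) • x +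
          (B / (A + B) * (A * (u₀ - t)) + A / (A + B) * (B * (u₀ + t))) • (y - x) := by module
      _ = l • x + (l * u₀) • (y - x) := by rw [e1, e2]
  have hlb : l • b u₀ ∈ ball (μ u₀ • b u₀) r ∩ E := by
    rw [← hcomb]
    exact hconv hm1 hm2 (by positivity) (by positivity) (by rw [← add_div]; rw [div_eq_one_iff_eq hAB.ne']; ring)
  have hm0 : μ u₀ • b u₀ ∈ ball (μ u₀ • b u₀) r ∩ E := ⟨mem_ball_self hr, hmem _ hu₀I⟩
  have hle : μ u₀ ≤ l := by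
    by_contra hlt
    push Not at hlt
    have hfin : μ u₀ ≤ l := by
      refine dn_le ⟨hl0.le, hlt.le.trans (dn_le_one (hb _ hu₀I))⟩ ?_
      intro s hs
      rcases le_or_gt (μ u₀) s with h | h
      · exact dn_spec hE (hb _ hu₀I) s ⟨h, hs.2⟩
      · have hseg := hconv hlb hm0 (a := (μ u₀ - s) / (μ u₀ - l)) (b := (s - l) / (μ u₀ - l))
          (div_nonneg (by linarith) (by linarith)) (div_nonneg (by linarith [hs.1]) (by linarith))
          (by rw [← add_div]; rw [div_eq_one_iff_eq (by linarith)]; ring)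
        have e : ((μ u₀ - s) / (μ u₀ - l)) • l • b u₀ + ((s - l) / (μ u₀ - l)) • μ u₀ • b u₀
            = s • b u₀ := by
          rw [smul_smul, smul_smul, ← add_smul]
          congr 1
          have : μ u₀ - l ≠ 0 := by linarith
          field_simp
          ring
        rw [e] at hseg
        exact hseg.2
    linarith
  have h3 : l⁻¹ ≤ (μ u₀)⁻¹ := inv_anti₀ (hpos _ hu₀I) hle
  have h4 : (A⁻¹ + B⁻¹) / 2 = l⁻¹ := by rw [hl]; field_simp; ring
  rw [h4]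
  exact h3

/-- A continuous function on `[0,1]` vanishing at the ends and locally midpoint concave is
nonnegative. -/
theorem nonneg_of_local_mid {F : ℝ → ℝ} (hF : ContinuousOn F (Icc 0 1)) (hF0 : 0 ≤ F 0)
    (hF1 : 0 ≤ F 1)
    (hloc : ∀ u ∈ Ioo (0 : ℝ) 1, ∃ δ > 0, ∀ t ∈ Ioo (0 : ℝ) δ, u - t ∈ Icc (0 : ℝ) 1 ∧
      u + t ∈ Icc (0 : ℝ) 1 ∧ (F (u - t) + F (u + t)) / 2 ≤ F u) :
    ∀ u ∈ Icc (0 : ℝ) 1, 0 ≤ F u := by
  by_contra hcon
  push Not at hcon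
  obtain ⟨v, hv, hFv⟩ := hcon
  obtain ⟨m, hm, hmin⟩ := isCompact_Icc.exists_isMinOn ⟨v, hv⟩ hF
  have hmv : F m ≤ F v := hmin hv
  have hm0 : F m < 0 := hmv.trans_lt hFv
  set S : Set ℝ := Icc 0 1 ∩ F ⁻¹' {F m} with hS
  have hScl : IsClosed S := hF.preimage_isClosed_of_isClosed isClosed_Icc isClosed_singleton
  have hSc : IsCompact S := isCompact_Icc.of_isClosed_subset hScl inter_subset_left
  have hSne : S.Nonempty := ⟨m, hm, rfl⟩
  obtain ⟨a, haS, hamin⟩ := hSc.exists_isMinOn hSne (continuous_id.continuousOn)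
  have haF : F a = F m := haS.2
  have ha0 : a ≠ 0 := by rintro rfl; rw [haF] at hF0; linarith
  have ha1 : a ≠ 1 := by rintro rfl; rw [haF] at hF1; linarith
  have haI : a ∈ Ioo (0 : ℝ) 1 := ⟨lt_of_le_of_ne haS.1.1 (Ne.symm ha0), lt_of_le_of_ne haS.1.2 ha1⟩
  obtain ⟨δ, hδ, hδ2⟩ := hloc a haI
  obtain ⟨h1, h2, h3⟩ := hδ2 (δ / 2) ⟨by linarith, by linarith⟩
  have h4 : F m ≤ F (a + δ / 2) := hmin h2
  have h5 : F m ≤ F (a - δ / 2) := hmin h1
  have h6 : F (a - δ / 2) ≠ F m := by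
    intro h
    have : a ≤ a - δ / 2 := hamin ⟨h1, h⟩
    linarith
  have h7 : F m < F (a - δ / 2) := lt_of_le_of_ne h5 (Ne.symm h6)
  linarith

/-- The lifted segment: with `e` the lowest point below `x` and `[x, y] ⊆ E`, a point of the
segment `[e, y]` near `e` is `l • z`, where `l ≥ 1` and `z ∈ E` is near `e`. -/
theorem lifted {E : Set V} (hE : IsClosed E) (H : Loc E) (h0 : (0 : V) ∉ E) {x y : V}
    (hb : ∀ u ∈ Icc (0 : ℝ) 1, x + u • (y - x) ∈ E) {r : ℝ} (hr : 0 < r) :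
    ∃ τ ∈ Ioc (0 : ℝ) 1, ∃ l ≥ (1 : ℝ), ∃ z ∈ ball (dn E x • x) r ∩ E,
      (1 - τ) • (dn E x • x) + τ • y = l • z := by
  set b : ℝ → V := fun u => x + u • (y - x) with hbdef
  set μ : ℝ → ℝ := fun u => dn E (b u) with hμ
  have hpos : ∀ u ∈ Icc (0 : ℝ) 1, 0 < μ u := fun u hu => dn_pos hE h0 (hb u hu)
  have hμc : ContinuousOn μ (Icc 0 1) := dn_continuousOn hE H hb
  have hmem : ∀ u ∈ Icc (0 : ℝ) 1, μ u • b u ∈ E := fun u hu =>
    dn_spec hE (hb u hu) _ ⟨le_rfl, dn_le_one (hb u hu)⟩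
  have hI0 : (0 : ℝ) ∈ Icc (0 : ℝ) 1 := ⟨le_rfl, zero_le_one⟩
  have hI1 : (1 : ℝ) ∈ Icc (0 : ℝ) 1 := ⟨zero_le_one, le_rfl⟩
  set m₀ := μ 0 with hm₀
  have hm₀pos : 0 < m₀ := hpos 0 hI0
  have hx : dn E x = m₀ := by simp [hm₀, hμ, hbdef]
  set c : ℝ → ℝ := fun u => (1 - u) * m₀⁻¹ + u with hc
  have hchord : ∀ u ∈ Icc (0 : ℝ) 1, 0 ≤ (μ u)⁻¹ - c u := by
    apply nonneg_of_local_mid
    · exact (hμc.inv₀ fun u hu => (hpos u hu).ne').sub (by simp only [hc]; fun_prop)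
    · simp [hc, hm₀]
    · simp only [hc]
      have : 1 ≤ (μ 1)⁻¹ := (one_le_inv₀ (hpos 1 hI1)).2 (dn_le_one (hb 1 hI1))
      linarith
    · intro u hu
      obtain ⟨δ, hδ, h⟩ := local_mid hE H h0 hb hu
      refine ⟨δ, hδ, fun t ht => ?_⟩
      obtain ⟨h1, h2, h3⟩ := h t ht
      refine ⟨h1, h2, ?_⟩
      have h4 : ((μ (u - t))⁻¹ + (μ (u + t))⁻¹) / 2 ≤ (μ u)⁻¹ := h3
      simp only [hc]
      linarith
  have hcw : ContinuousWithinAt (fun u => μ u • b u) (Icc 0 1) 0 := by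
    have h2 : Continuous b := by simp only [hbdef]; fun_prop
    exact (hμc 0 hI0).smul h2.continuousWithinAt
  have hev : ∀ᶠ u in 𝓝[Icc 0 1] (0 : ℝ), μ u • b u ∈ ball (μ 0 • b 0) r :=
    hcw.tendsto (ball_mem_nhds _ hr)
  have hev2 : ∀ᶠ u in 𝓝[>] (0 : ℝ), μ u • b u ∈ ball (μ 0 • b 0) r ∧ u ∈ Ioo (0 : ℝ) 1 := by
    have h1 : ∀ᶠ u in 𝓝[>] (0 : ℝ), u ∈ Ioo (0 : ℝ) 1 := Ioo_mem_nhdsGT one_pos
    rw [eventually_nhdsWithin_iff] at hev h1 ⊢
    filter_upwards [hev, h1] with u h2 h3 h4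
    exact ⟨h2 ⟨(h3 h4).1.le, (h3 h4).2.le⟩, h3 h4⟩
  obtain ⟨u, hu1, hu2⟩ := hev2.exists
  have huI : u ∈ Icc (0 : ℝ) 1 := ⟨hu2.1.le, hu2.2.le⟩
  have hm₀inv : 0 < m₀⁻¹ := inv_pos.2 hm₀pos
  have hcpos : 0 < c u := by
    have h1 : 0 ≤ (1 - u) * m₀⁻¹ := mul_nonneg (by linarith [hu2.2]) hm₀inv.le
    simp only [hc]; linarith [hu2.1]
  have hcu : u ≤ c u := by
    have h1 : 0 ≤ (1 - u) * m₀⁻¹ := mul_nonneg (by linarith [hu2.2]) hm₀inv.le
    simp only [hc]; linarith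
  refine ⟨u / c u, ⟨div_pos hu2.1 hcpos, (div_le_one hcpos).2 hcu⟩, (μ u)⁻¹ / c u, ?_,
    μ u • b u, ⟨?_, hmem u huI⟩, ?_⟩
  · have := hchord u huI
    rw [ge_iff_le, le_div_iff₀ hcpos]; linarith
  · have e : dn E x • x = μ 0 • b 0 := by simp [hμ, hbdef]
    rw [e]; exact hu1
  · rw [hx]
    have hμu : μ u ≠ 0 := (hpos u huI).ne'
    have e1 : ((μ u)⁻¹ / c u) • μ u • b u = (c u)⁻¹ • b u := by
      rw [smul_smul]; congr 1; field_simp
    have e2 : (1 - u / c u) * m₀ = (c u)⁻¹ * (1 - u) := by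
      have hcne := hcpos.ne'
      have hmne := hm₀pos.ne'
      have h3 : c u = (1 - u) * m₀⁻¹ + u := rfl
      field_simp
      rw [h3]; field_simp; ring
    have e3 : u / c u = (c u)⁻¹ * u := by ring
    rw [e1, smul_smul, e2, e3]
    simp only [hbdef]
    module

/-- Key contradiction: `0` is not a convex combination of points seen from `x` if `0 ∉ E`. -/
theorem mem_of_hull {E : Set V} (hE : IsClosed E) (H : Loc E) {x : V} (hxE : x ∈ E)
    {K : Set V} (hK : ∀ y ∈ K, ∀ u ∈ Icc (0 : ℝ) 1, x + u • (y - x) ∈ E)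
    (h0K : (0 : V) ∈ convexHull ℝ K) : (0 : V) ∈ E := by
  by_contra h0
  set e : V := dn E x • x with he
  have heE : e ∈ E := dn_spec hE hxE _ ⟨le_rfl, dn_le_one hxE⟩
  have hst : Stuck E e := stuck_dn hE hxE (dn_pos hE h0 hxE)
  obtain ⟨r, hr, hconv⟩ := stuck_convex H heE hst
  set C : Set V := closedBall e (r / 2) ∩ E with hC
  have hCeq : C = closedBall e (r / 2) ∩ (ball e r ∩ E) := by
    ext v
    simp only [hC, mem_inter_iff, mem_closedBall, mem_ball]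
    constructor
    · rintro ⟨h1, h2⟩; exact ⟨h1, by linarith, h2⟩
    · rintro ⟨h1, _, h2⟩; exact ⟨h1, h2⟩
  have hCconv : Convex ℝ C := by rw [hCeq]; exact (convex_closedBall _ _).inter hconv
  have hCcl : IsClosed C := isClosed_closedBall.inter hE
  -- the finite convex combination
  rw [convexHull_eq] at h0K
  obtain ⟨ι, t, w, z, hw0, hw1, hz, hsum⟩ := h0K
  rw [Finset.centerMass_eq_of_sum_1 _ _ hw1] at hsum
  have hr2 : 0 < r / 2 := by linarith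
  have hlift : ∀ i ∈ t, ∃ τ ∈ Ioc (0 : ℝ) 1, ∃ l ≥ (1 : ℝ), ∃ v ∈ ball e (r / 2) ∩ E,
      (1 - τ) • e + τ • z i = l • v := fun i hi =>
    lifted hE H h0 (hK _ (hz i hi)) hr2
  choose! τ hτ l hl v hv heq using hlift
  have htne : t.Nonempty := by
    rw [Finset.nonempty_iff_ne_empty]
    rintro rfl
    simp at hw1
  obtain ⟨i₀, hi₀, hi₀min⟩ := t.exists_min_image τ htne
  have hτ0 : 0 < τ i₀ := (hτ i₀ hi₀).1
  obtain ⟨s, hs1, hs2⟩ := hst (min (τ i₀) 1) (lt_min hτ0 one_pos)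
  have hsτ : s < τ i₀ := hs1.2.trans_le (min_le_left _ _)
  have hs1' : s < 1 := hs1.2.trans_le (min_le_right _ _)
  have hnC : (1 - s) • e ∉ C := fun h => hs2 h.2
  obtain ⟨f, c, hfc, hcC⟩ := geometric_hahn_banach_point_closed hCconv hCcl hnC
  have heC : e ∈ C := ⟨mem_closedBall_self hr2.le, heE⟩
  have hfe : c < f e := hcC e heC
  have hfs : (1 - s) * f e < c := by simpa using hfc
  have hfe0 : 0 < f e := by
    by_contra hneg
    push Not at hneg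
    nlinarith [hs1.1]
  have hc0 : 0 < c := lt_of_le_of_lt (mul_nonneg (by linarith) hfe0.le) hfs
  have hfz : ∀ i ∈ t, f e - (f e - c) / τ i₀ ≤ f (z i) := by
    intro i hi
    have h1 : (1 - τ i) * f e + τ i * f (z i) = l i * f (v i) := by
      have := congrArg f (heq i hi)
      simpa using this
    have h2 : c < f (v i) := hcC _ ⟨ball_subset_closedBall (hv i hi).1, (hv i hi).2⟩
    have h3 : c ≤ l i * f (v i) := by
      have : 1 * f (v i) ≤ l i * f (v i) :=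
        mul_le_mul_of_nonneg_right (hl i hi) (by linarith)
      linarith
    have h4 : τ i₀ ≤ τ i := hi₀min i hi
    have h5 : 0 < τ i := (hτ i hi).1
    have h6 : (f e - c) / τ i ≤ (f e - c) / τ i₀ :=
      div_le_div_of_nonneg_left (by linarith) hτ0 h4
    have h7 : f e - (f e - c) / τ i ≤ f (z i) := by
      rw [sub_le_iff_le_add, ← sub_le_iff_le_add', le_div_iff₀ h5]
      nlinarith
    linarith
  have hf0 : f (∑ i ∈ t, w i • z i) = 0 := by rw [hsum]; simp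
  rw [map_sum] at hf0
  simp only [map_smul, smul_eq_mul] at hf0
  have h8 : (f e - (f e - c) / τ i₀) ≤ ∑ i ∈ t, w i * f (z i) := by
    calc f e - (f e - c) / τ i₀ = ∑ i ∈ t, w i * (f e - (f e - c) / τ i₀) := by
          rw [← Finset.sum_mul, hw1, one_mul]
      _ ≤ ∑ i ∈ t, w i * f (z i) :=
          Finset.sum_le_sum fun i hi => mul_le_mul_of_nonneg_left (hfz i hi) (hw0 i hi)
  rw [hf0] at h8
  have h9 : f e * τ i₀ ≤ f e - c := by
    have : f e ≤ (f e - c) / τ i₀ := by linarith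
    rwa [le_div_iff₀ hτ0] at this
  nlinarith

end Pool.Agent.Q129.LNC
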