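import Mathlib

set_option autoImplicit false

open Set Metric Filter Topology

namespace Pool.Agent.Q129.LNC

variable {V : Type*} [NormedAddCommGroup V] [NormedSpace ℝ V]

/-- The lower end of the part of `E` reached from `w` by moving straight towards `0`. -/
noncomputable def dn (E : Set V) (w : V) : ℝ :=
  sInf {t : ℝ | t ∈ Icc (0 : ℝ) 1 ∧ ∀ s ∈ Icc t 1, s • w ∈ E}

theorem dn_le {E : Set V} {w : V} {t : ℝ} (ht : t ∈ Icc (0 : ℝ) 1)
    (h : ∀ s ∈ Icc t 1, s • w ∈ E) : dn E w ≤ t :=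
  csInf_le ⟨0, fun _ hx => hx.1.1⟩ ⟨ht, h⟩

theorem dn_nonneg (E : Set V) (w : V) : 0 ≤ dn E w :=
  Real.sInf_nonneg fun _ hx => hx.1.1

theorem dn_le_one {E : Set V} {w : V} (hw : w ∈ E) : dn E w ≤ 1 := by
  refine dn_le ⟨zero_le_one, le_rfl⟩ ?_
  intro s hs
  have : s = 1 := le_antisymm hs.2 hs.1
  simpa [this] using hw

theorem dn_spec {E : Set V} (hE : IsClosed E) {w : V} (hw : w ∈ E) :
    ∀ s ∈ Icc (dn E w) 1, s • w ∈ E := by
  have h1 : ∀ s ∈ Ioc (dn E w) 1, s • w ∈ E := by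
    intro s hs
    have hne : {t : ℝ | t ∈ Icc (0 : ℝ) 1 ∧ ∀ s ∈ Icc t 1, s • w ∈ E}.Nonempty :=
      ⟨1, ⟨zero_le_one, le_rfl⟩, fun s hs => by
        have : s = 1 := le_antisymm hs.2 hs.1
        simpa [this] using hw⟩
    obtain ⟨t, ht, hts⟩ := exists_lt_of_csInf_lt hne hs.1
    exact ht.2 s ⟨hts.le, hs.2⟩
  rcases eq_or_lt_of_le (dn_le_one hw) with h | h
  · intro s hs
    have : s = 1 := le_antisymm hs.2 (h ▸ hs.1)
    simpa [this] using hw
  · have hc : IsClosed {s : ℝ | s • w ∈ E} :=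
      hE.preimage (continuous_id.smul continuous_const)
    have h2 : closure (Ioc (dn E w) 1) ⊆ {s : ℝ | s • w ∈ E} :=
      closure_minimal (fun s hs => h1 s hs) hc
    rw [closure_Ioc h.ne] at h2
    exact fun s hs => h2 hs

/-- `q` cannot be moved towards `0` inside `E`. -/
def Stuck (E : Set V) (q : V) : Prop := ∀ ε > 0, ∃ s ∈ Ioo (0 : ℝ) ε, (1 - s) • q ∉ E

theorem stuck_dn {E : Set V} (hE : IsClosed E) {w : V} (hw : w ∈ E) (h0 : 0 < dn E w) :
    Stuck E (dn E w • w) := by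
  intro ε hε
  by_contra hcon
  push Not at hcon
  set m := dn E w with hm
  set η : ℝ := min ε 1 / 2 with hη
  have hη0 : 0 < η := by positivity
  have hη1 : η < ε := by
    have := min_le_left ε 1
    have : min ε 1 / 2 < ε := by
      have h3 : 0 < min ε 1 := by positivity
      linarith
    exact this
  have hη2 : η ≤ 1 / 2 := by
    have := min_le_right ε 1
    rw [hη]; linarith
  have hm1 : m ≤ 1 := dn_le_one hw
  have key : dn E w ≤ m * (1 - η) := by
    refine dn_le ⟨by nlinarith, by nlinarith⟩ ?_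
    intro s hs
    rcases le_or_gt m s with h | h
    · exact dn_spec hE hw s ⟨h, hs.2⟩
    · have hs0 : (0 : ℝ) < 1 - s / m := by
        have : s / m < 1 := by rw [div_lt_one h0]; exact h
        linarith
      have hs1 : 1 - s / m < ε := by
        have : 1 - η ≤ s / m := by rw [le_div_iff₀ h0]; linarith [hs.1]
        linarith
      have := hcon (1 - s / m) ⟨hs0, hs1⟩
      rw [smul_smul] at this
      have e : (1 - (1 - s / m)) * m = s := by field_simp; ring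
      rwa [e] at this
  have : m * (1 - η) < m := by nlinarith
  linarith

/-- The local hypothesis: every point of `E` is a point of local convexity or a point near
which everything can be moved towards `0` by a uniform amount. -/
def Loc (E : Set V) : Prop := ∀ p ∈ E, (∃ r > 0, Convex ℝ (ball p r ∩ E)) ∨
  (∃ r > 0, ∃ s₀ > 0, ∀ q ∈ ball p r ∩ E, ∀ s ∈ Icc (0 : ℝ) s₀, (1 - s) • q ∈ E)

theorem lim_stuck {E : Set V} (H : Loc E) {p : V} (hp : p ∈ E) {q : ℕ → V}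
    (hq : ∀ k, q k ∈ E) (hs : ∀ k, Stuck E (q k)) (hlim : Tendsto q atTop (𝓝 p)) :
    ∃ r > 0, Convex ℝ (ball p r ∩ E) := by
  rcases H p hp with h | ⟨r, hr, s₀, hs₀, h⟩
  · exact h
  · exfalso
    obtain ⟨k, hk⟩ := (hlim.eventually (ball_mem_nhds p hr)).exists
    obtain ⟨s, hs1, hs2⟩ := hs k s₀ hs₀
    exact hs2 (h (q k) ⟨hk, hq k⟩ s ⟨hs1.1.le, hs1.2.le⟩)

theorem stuck_convex {E : Set V} (H : Loc E) {p : V} (hp : p ∈ E) (hs : Stuck E p) :
    ∃ r > 0, Convex ℝ (ball p r ∩ E) :=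
  lim_stuck H hp (fun _ => hp) (fun _ => hs) tendsto_const_nhds

theorem dn_zero {E : Set V} (h0 : (0 : V) ∈ E) : dn E 0 = 0 :=
  le_antisymm (dn_le ⟨le_rfl, zero_le_one⟩ fun s _ => by simpa using h0) (dn_nonneg E 0)

theorem dn_usc_right {E : Set V} (hE : IsClosed E) (H : Loc E) {x y : V}
    (hb : ∀ u ∈ Icc (0 : ℝ) 1, x + u • (y - x) ∈ E) {u₀ : ℝ} (hu₀ : u₀ ∈ Ico (0 : ℝ) 1)
    {ε : ℝ} (hε : 0 < ε) :
    ∀ᶠ u in 𝓝[>] u₀, dn E (x + u • (y - x)) < dn E (x + u₀ • (y - x)) + ε := by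
  by_contra hcon
  rw [Filter.not_eventually] at hcon
  have hev : ∀ᶠ u in 𝓝[>] u₀, u ∈ Ioo u₀ 1 := Ioo_mem_nhdsGT hu₀.2
  obtain ⟨us, hus, hus2⟩ := exists_seq_forall_of_frequently (hcon.and_eventually hev)
  set b : ℝ → V := fun u => x + u • (y - x) with hbdef
  set μ : ℝ → ℝ := fun u => dn E (b u) with hμ
  have hus3 : Tendsto us atTop (𝓝 u₀) := hus.mono_right nhdsWithin_le_nhds
  have husI : ∀ k, us k ∈ Icc (0 : ℝ) 1 := fun k =>
    ⟨hu₀.1.trans (hus2 k).2.1.le, (hus2 k).2.2.le⟩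
  have hbE : ∀ k, b (us k) ∈ E := fun k => hb _ (husI k)
  have hbE0 : b u₀ ∈ E := hb _ ⟨hu₀.1, hu₀.2.le⟩
  have hbig : ∀ k, μ u₀ + ε ≤ μ (us k) := fun k => not_lt.mp (hus2 k).1
  obtain ⟨a, ha, φ, hφ, hlim⟩ := isCompact_Icc.tendsto_subseq
    (x := fun k => μ (us k)) (s := Icc (0 : ℝ) 1)
    (fun k => ⟨dn_nonneg _ _, dn_le_one (hbE k)⟩)
  have haε : μ u₀ + ε ≤ a := ge_of_tendsto' hlim fun k => hbig (φ k)
  have hμ0 : 0 ≤ μ u₀ := dn_nonneg _ _
  have hbc : Continuous b := by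
    simp only [hbdef]; fun_prop
  have hulim : Tendsto (fun k => us (φ k)) atTop (𝓝 u₀) := hus3.comp hφ.tendsto_atTop
  set p : V := a • b u₀ with hp
  have hpE : p ∈ E := dn_spec hE hbE0 a ⟨by linarith, ha.2⟩
  set q : ℕ → V := fun k => μ (us (φ k)) • b (us (φ k)) with hq
  have hqlim : Tendsto q atTop (𝓝 p) :=
    Tendsto.smul hlim ((hbc.tendsto u₀).comp hulim)
  have hqE : ∀ k, q k ∈ E := fun k =>
    dn_spec hE (hbE _) _ ⟨le_rfl, dn_le_one (hbE _)⟩
  have hqs : ∀ k, Stuck E (q k) := fun k =>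
    stuck_dn hE (hbE _) (lt_of_lt_of_le (by linarith) (hbig (φ k)))
  obtain ⟨r, hr, hconv⟩ := lim_stuck H hpE hqE hqs hqlim
  -- a point a little below `p`
  have hapos : 0 < a := by linarith
  obtain ⟨c, hc1, hc2, hc3, hc4⟩ : ∃ c : ℝ, 0 < c ∧ μ u₀ ≤ c ∧ c < a ∧ c • b u₀ ∈ ball p r := by
    have h1 : Tendsto (fun c : ℝ => c • b u₀) (𝓝[<] a) (𝓝 p) :=
      ((continuous_id.smul continuous_const).tendsto a).mono_left nhdsWithin_le_nhds
    have h2 : ∀ᶠ c in 𝓝[<] a, c • b u₀ ∈ ball p r := h1 (ball_mem_nhds p hr)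
    have h3 : ∀ᶠ c in 𝓝[<] a, c ∈ Ioo (max (μ u₀) (a / 2)) a :=
      Ioo_mem_nhdsLT (max_lt (by linarith) (by linarith))
    obtain ⟨c, hc⟩ := (h2.and h3).exists
    exact ⟨c, by have := (le_max_right (μ u₀) (a / 2)).trans_lt hc.2.1; linarith,
      (le_max_left _ _).trans hc.2.1.le, hc.2.2, hc.1⟩
  have hcE : c • b u₀ ∈ E := dn_spec hE hbE0 c ⟨hc2, by linarith [ha.2]⟩
  obtain ⟨K, hK⟩ := (hqlim.eventually (ball_mem_nhds p hr)).exists
  set U := us (φ K) with hU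
  set M := μ U with hM
  have hUu : u₀ < U := (hus2 (φ K)).2.1
  have hMpos : 0 < M := lt_of_lt_of_le (by linarith) (hbig (φ K))
  -- the crossing points
  have hden : ∀ u, u₀ < u → u < U → 0 < c * (u - u₀) + M * (U - u) := fun u h1 h2 => by
    have := mul_pos hc1 (sub_pos.2 h1)
    have := mul_pos hMpos (sub_pos.2 h2)
    linarith
  have hrho : Tendsto (fun u : ℝ => (1 - c * (u - u₀) / (c * (u - u₀) + M * (U - u))) * c
      + c * (u - u₀) / (c * (u - u₀) + M * (U - u)) * M) (𝓝 u₀) (𝓝 c) := by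
    have hcont : ContinuousAt (fun u : ℝ => (1 - c * (u - u₀) / (c * (u - u₀) + M * (U - u))) * c
      + c * (u - u₀) / (c * (u - u₀) + M * (U - u)) * M) u₀ := by
      have hne : c * (u₀ - u₀) + M * (U - u₀) ≠ 0 := by
        have := mul_pos hMpos (sub_pos.2 hUu)
        simp; exact ⟨hMpos.ne', (sub_pos.2 hUu).ne'⟩
      fun_prop (disch := assumption)
    have h2 := hcont.tendsto
    simpa using h2
  have hrho2 := hrho.comp hulim
  have hlt : ∀ᶠ k in atTop, (1 - c * (us (φ k) - u₀) / (c * (us (φ k) - u₀) + M * (U - us (φ k)))) * c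
      + c * (us (φ k) - u₀) / (c * (us (φ k) - u₀) + M * (U - us (φ k))) * M < μ (us (φ k)) :=
    hrho2.eventually_lt hlim hc3
  have hU2 : ∀ᶠ k in atTop, us (φ k) < U := hulim.eventually (gt_mem_nhds hUu)
  obtain ⟨k, hk1, hk2, hk3⟩ := (hlt.and (hU2.and (hqlim.eventually (ball_mem_nhds p hr)))).exists
  set u := us (φ k) with hu
  have huu : u₀ < u := (hus2 (φ k)).2.1
  have hD := hden u huu hk2
  set ρ : ℝ := c * (u - u₀) / (c * (u - u₀) + M * (U - u)) with hρ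
  have hρ0 : 0 ≤ ρ := div_nonneg (mul_nonneg hc1.le (by linarith)) hD.le
  have hρ1 : ρ ≤ 1 := by
    rw [hρ, div_le_one hD]
    have := mul_pos hMpos (sub_pos.2 hk2)
    linarith
  set l : ℝ := (1 - ρ) * c + ρ * M with hl
  have hl0 : 0 ≤ l := add_nonneg (mul_nonneg (by linarith) hc1.le) (mul_nonneg hρ0 hMpos.le)
  have hrel : (1 - ρ) * c * (u - u₀) = ρ * M * (U - u) := by
    have : ρ * (c * (u - u₀) + M * (U - u)) = c * (u - u₀) := by
      rw [hρ]; field_simp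
    nlinarith
  have hcomb : (1 - ρ) • (c • b u₀) + ρ • (M • b U) = l • b u := by
    simp only [hbdef, smul_add, smul_smul]
    have e1 : (1 - ρ) * (c * u₀) + ρ * (M * U) = l * u := by
      rw [hl]; nlinarith
    have e2 : (1 - ρ) * c + ρ * M = l := rfl
    calc ((1 - ρ) * c) • x + ((1 - ρ) * (c * u₀)) • (y - x) + ((ρ * M) • x + (ρ * (M * U)) • (y - x))
        = ((1 - ρ) * c + ρ * M) • x + ((1 - ρ) * (c * u₀) + ρ * (M * U)) • (y - x) := by module
      _ = l • x + (l * u) • (y - x) := by rw [e1, e2]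
  have hcr : l • b u ∈ ball p r ∩ E := by
    rw [← hcomb]
    exact hconv ⟨hc4, hcE⟩ ⟨hK, hqE K⟩ (by linarith) hρ0 (by ring)
  have hqk : μ u • b u ∈ ball p r ∩ E := ⟨hk3, hqE k⟩
  have hlu : l < μ u := hk1
  have hfin : dn E (b u) ≤ l := by
    refine dn_le ⟨hl0, hlu.le.trans (dn_le_one (hbE _))⟩ ?_
    intro s hs
    rcases le_or_gt (μ u) s with h | h
    · exact dn_spec hE (hbE _) s ⟨h, hs.2⟩
    · have hseg := hconv hcr hqk (a := (μ u - s) / (μ u - l)) (b := (s - l) / (μ u - l))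
        (div_nonneg (by linarith) (by linarith)) (div_nonneg (by linarith [hs.1]) (by linarith))
        (by rw [← add_div]; rw [div_eq_one_iff_eq (by linarith)]; ring)
      have e : ((μ u - s) / (μ u - l)) • l • b u + ((s - l) / (μ u - l)) • μ u • b u = s • b u := by
        rw [smul_smul, smul_smul, ← add_smul]
        congr 1
        have : μ u - l ≠ 0 := by linarith
        field_simp
        ring
      rw [e] at hseg
      exact hseg.2
  linarith

theorem dn_usc_left {E : Set V} (hE : IsClosed E) (H : Loc E) {x y : V}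
    (hb : ∀ u ∈ Icc (0 : ℝ) 1, x + u • (y - x) ∈ E) {u₀ : ℝ} (hu₀ : u₀ ∈ Ioc (0 : ℝ) 1)
    {ε : ℝ} (hε : 0 < ε) :
    ∀ᶠ u in 𝓝[<] u₀, dn E (x + u • (y - x)) < dn E (x + u₀ • (y - x)) + ε := by
  have e : ∀ u : ℝ, y + u • (x - y) = x + (1 - u) • (y - x) := fun u => by module
  have hb' : ∀ u ∈ Icc (0 : ℝ) 1, y + u • (x - y) ∈ E := fun u hu => by
    rw [e]; exact hb _ ⟨by linarith [hu.2], by linarith [hu.1]⟩
  have h := dn_usc_right hE H hb' (u₀ := 1 - u₀) ⟨by linarith [hu₀.2], by linarith [hu₀.1]⟩ hε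
  simp only [e, sub_sub_cancel] at h
  have ht : Tendsto (fun u : ℝ => 1 - u) (𝓝[<] u₀) (𝓝[>] (1 - u₀)) := by
    refine tendsto_nhdsWithin_of_tendsto_nhds_of_eventually_within _ ?_ ?_
    · exact ((continuous_const.sub continuous_id).tendsto u₀).mono_left nhdsWithin_le_nhds
    · filter_upwards [self_mem_nhdsWithin] with u hu
      have : u < u₀ := hu
      show 1 - u₀ < 1 - u
      linarith
  have := ht.eventually h
  simpa using this

theorem dn_lsc {E : Set V} (hE : IsClosed E) {x y : V} {u₀ : ℝ}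
    (hb0 : x + u₀ • (y - x) ∈ E) {ε : ℝ} (hε : 0 < ε)
    (hb : ∀ᶠ u in 𝓝 u₀, u ∈ Icc (0 : ℝ) 1 → x + u • (y - x) ∈ E) :
    ∀ᶠ u in 𝓝 u₀, u ∈ Icc (0 : ℝ) 1 →
      dn E (x + u₀ • (y - x)) - ε < dn E (x + u • (y - x)) := by
  rcases lt_or_ge (dn E (x + u₀ • (y - x)) - ε) 0 with h | h
  · exact Filter.Eventually.of_forall fun u _ => h.trans_le (dn_nonneg _ _)
  · obtain ⟨s, hs1, hs2⟩ : ∃ s ∈ Ico (dn E (x + u₀ • (y - x)) - ε) (dn E (x + u₀ • (y - x))),
        s • (x + u₀ • (y - x)) ∉ E := by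
      by_contra hcon
      push Not at hcon
      have : dn E (x + u₀ • (y - x)) ≤ dn E (x + u₀ • (y - x)) - ε := by
        refine dn_le ⟨h, by linarith [dn_le_one hb0]⟩ ?_
        intro s hs
        rcases lt_or_ge s (dn E (x + u₀ • (y - x))) with h1 | h1
        · exact hcon s ⟨hs.1, h1⟩
        · exact dn_spec hE hb0 s ⟨h1, hs.2⟩
      linarith
    have hc : Continuous fun u : ℝ => s • (x + u • (y - x)) := by fun_prop
    have h3 : ∀ᶠ u in 𝓝 u₀, s • (x + u • (y - x)) ∉ E :=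
      (hc.tendsto u₀).eventually (hE.isOpen_compl.mem_nhds hs2)
    filter_upwards [h3, hb] with u hu hbu huI
    by_contra hcon
    push Not at hcon
    refine hu (dn_spec hE (hbu huI) s ⟨hcon.trans hs1.1, ?_⟩)
    exact hs1.2.le.trans (dn_le_one hb0)

theorem dn_continuousOn {E : Set V} (hE : IsClosed E) (H : Loc E) {x y : V}
    (hb : ∀ u ∈ Icc (0 : ℝ) 1, x + u • (y - x) ∈ E) :
    ContinuousOn (fun u : ℝ => dn E (x + u • (y - x))) (Icc 0 1) := by
  intro u₀ hu₀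
  rw [ContinuousWithinAt, Metric.tendsto_nhds]
  intro ε hε
  have h1 : ∀ᶠ u in 𝓝[Icc 0 1] u₀,
      dn E (x + u₀ • (y - x)) - ε < dn E (x + u • (y - x)) := by
    have := dn_lsc hE (hb _ hu₀) hε (Filter.Eventually.of_forall hb)
    rw [eventually_nhdsWithin_iff]
    exact this
  have h2 : ∀ᶠ u in 𝓝[Icc 0 1] u₀,
      dn E (x + u • (y - x)) < dn E (x + u₀ • (y - x)) + ε := by
    have hR : ∀ᶠ u in 𝓝[Icc 0 1 ∩ Ioi u₀] u₀,
        dn E (x + u • (y - x)) < dn E (x + u₀ • (y - x)) + ε := by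
      rcases eq_or_lt_of_le hu₀.2 with h | h
      · have : Icc (0 : ℝ) 1 ∩ Ioi u₀ = ∅ := by
          ext u; simp only [mem_inter_iff, mem_Icc, mem_Ioi, mem_empty_iff_false, iff_false]
          rintro ⟨⟨_, h3⟩, h4⟩; linarith
        rw [this]; simp
      · exact (dn_usc_right hE H hb ⟨hu₀.1, h⟩ hε).filter_mono
          (nhdsWithin_mono _ inter_subset_right)
    have hL : ∀ᶠ u in 𝓝[Icc 0 1 ∩ Iio u₀] u₀,
        dn E (x + u • (y - x)) < dn E (x + u₀ • (y - x)) + ε := by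
      rcases eq_or_lt_of_le hu₀.1 with h | h
      · have : Icc (0 : ℝ) 1 ∩ Iio u₀ = ∅ := by
          ext u; simp only [mem_inter_iff, mem_Icc, mem_Iio, mem_empty_iff_false, iff_false]
          rintro ⟨⟨h3, _⟩, h4⟩; linarith
        rw [this]; simp
      · exact (dn_usc_left hE H hb ⟨h, hu₀.2⟩ hε).filter_mono
          (nhdsWithin_mono _ inter_subset_right)
    rw [eventually_nhdsWithin_iff] at hR hL ⊢
    filter_upwards [hR, hL] with u h3 h4 h5
    rcases lt_trichotomy u u₀ with h6 | h6 | h6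
    · exact h4 ⟨h5, h6⟩
    · rw [h6]; linarith
    · exact h3 ⟨h5, h6⟩
  filter_upwards [h1, h2] with u h3 h4
  rw [Real.dist_eq, abs_lt]
  constructor <;> linarith

/-- Visibility from `0` is transported along segments of `E`. -/
theorem dn_zero_of_segment {E : Set V} (hE : IsClosed E) (H : Loc E) (h0 : (0 : V) ∈ E) {x y : V}
    (hb : ∀ u ∈ Icc (0 : ℝ) 1, x + u • (y - x) ∈ E) (hx : dn E x = 0) : dn E y = 0 := by
  set b : ℝ → V := fun u => x + u • (y - x) with hbdef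
  set S : Set ℝ := {u | dn E (b u) = 0} with hS
  have hcont := dn_continuousOn hE H hb
  have hcl : IsClosed (S ∩ Icc 0 1) := by
    have : S ∩ Icc 0 1 = Icc 0 1 ∩ (fun u : ℝ => dn E (x + u • (y - x))) ⁻¹' {0} := by
      ext u; simp [hS, hbdef, and_comm]
    rw [this]
    exact hcont.preimage_isClosed_of_isClosed isClosed_Icc isClosed_singleton
  have h0S : (0 : ℝ) ∈ S := by simp [hS, hbdef, hx]
  have hbc : Continuous b := by simp only [hbdef]; fun_prop
  have hall : Icc (0 : ℝ) 1 ⊆ S := by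
    refine hcl.Icc_subset_of_forall_mem_nhdsWithin h0S ?_
    rintro u₀ ⟨hu₀S, hu₀⟩
    by_contra hcon
    have hfr : ∃ᶠ u in 𝓝[>] u₀, u ∉ S := by
      rw [Filter.frequently_iff]
      intro U hU
      by_contra h
      push Not at h
      exact hcon (mem_of_superset hU h)
    have hev : ∀ᶠ u in 𝓝[>] u₀, u ∈ Ioo u₀ 1 := Ioo_mem_nhdsGT hu₀.2
    obtain ⟨us, hus, hus2⟩ := exists_seq_forall_of_frequently (hfr.and_eventually hev)
    have hus3 : Tendsto us atTop (𝓝 u₀) := hus.mono_right nhdsWithin_le_nhds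
    have husI : ∀ k, us k ∈ Icc (0 : ℝ) 1 := fun k =>
      ⟨hu₀.1.trans (hus2 k).2.1.le, (hus2 k).2.2.le⟩
    have hbE : ∀ k, b (us k) ∈ E := fun k => hb _ (husI k)
    have hpos : ∀ k, 0 < dn E (b (us k)) := fun k =>
      lt_of_le_of_ne (dn_nonneg _ _) (Ne.symm (hus2 k).1)
    have hlimμ : Tendsto (fun k => dn E (b (us k))) atTop (𝓝 0) := by
      have h1 := hcont u₀ ⟨hu₀.1, hu₀.2.le⟩
      have h2 : Tendsto us atTop (𝓝[Icc 0 1] u₀) :=
        tendsto_nhdsWithin_of_tendsto_nhds_of_eventually_within _ hus3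
          (Filter.Eventually.of_forall husI)
      have h3 := h1.tendsto.comp h2
      have h4 : dn E (x + u₀ • (y - x)) = 0 := hu₀S
      rw [h4] at h3
      exact h3
    have hq : Tendsto (fun k => dn E (b (us k)) • b (us k)) atTop (𝓝 (0 : V)) := by
      have := hlimμ.smul ((hbc.tendsto u₀).comp hus3)
      simpa using this
    obtain ⟨r, hr, hconv⟩ := lim_stuck H h0
      (fun k => dn_spec hE (hbE k) _ ⟨le_rfl, dn_le_one (hbE k)⟩)
      (fun k => stuck_dn hE (hbE k) (hpos k)) hq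
    obtain ⟨k, hk⟩ := (hq.eventually (ball_mem_nhds 0 hr)).exists
    have hst := stuck_dn hE (hbE k) (hpos k)
    obtain ⟨s, hs1, hs2⟩ := hst 1 one_pos
    apply hs2
    have hmem : dn E (b (us k)) • b (us k) ∈ ball 0 r ∩ E :=
      ⟨hk, dn_spec hE (hbE k) _ ⟨le_rfl, dn_le_one (hbE k)⟩⟩
    have := hconv ⟨mem_ball_self hr, h0⟩ hmem hs1.1.le (by linarith [hs1.2] : (0:ℝ) ≤ 1 - s)
      (by ring)
    simpa using this.2
  have := hall (right_mem_Icc.2 zero_le_one)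
  simpa [hS, hbdef] using this

theorem mem_of_dn_zero {E : Set V} (hE : IsClosed E) {w : V} (hw : w ∈ E) (h : dn E w = 0) :
    ∀ s ∈ Icc (0 : ℝ) 1, s • w ∈ E := by
  intro s hs
  exact dn_spec hE hw s ⟨h ▸ hs.1, hs.2⟩

theorem dn_smul_zero {E : Set V} (hE : IsClosed E) {w : V} (hw : w ∈ E) (h : dn E w = 0)
    {a : ℝ} (ha : a ∈ Icc (0 : ℝ) 1) : dn E (a • w) = 0 := by
  refine le_antisymm (dn_le ⟨le_rfl, zero_le_one⟩ ?_) (dn_nonneg _ _)
  intro s hs
  rw [smul_smul]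
  exact mem_of_dn_zero hE hw h _ ⟨mul_nonneg hs.1 ha.1, mul_le_one₀ hs.2 ha.1 ha.2⟩

/-- If `0 ∈ E`, then `E` is starshaped with respect to `0`. -/
theorem star_of_mem {E : Set V} (hE : IsClosed E) (hconn : IsPreconnected E) (H : Loc E)
    (h0 : (0 : V) ∈ E) : ∀ w ∈ E, dn E w = 0 := by
  set A : Set V := {w | w ∈ E ∧ dn E w = 0} with hA
  have hAcl : IsClosed A := by
    have : A = ⋂ s ∈ Icc (0 : ℝ) 1, (fun w : V => s • w) ⁻¹' E := by
      ext w
      simp only [hA, mem_ofPred_eq, mem_iInter, mem_preimage]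
      constructor
      · rintro ⟨h1, h2⟩ s hs
        exact mem_of_dn_zero hE h1 h2 s hs
      · intro h
        have hw : w ∈ E := by simpa using h 1 ⟨zero_le_one, le_rfl⟩
        exact ⟨hw, le_antisymm (dn_le ⟨le_rfl, zero_le_one⟩ h) (dn_nonneg _ _)⟩
    rw [this]
    exact isClosed_biInter fun s _ => hE.preimage (continuous_const_smul s)
  set B : Set V := {w | w ∈ E ∧ dn E w ≠ 0} with hB
  have hBcl : IsClosed B := by
    apply IsSeqClosed.isClosed
    intro z z₀ hz hlim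
    have hz₀ : z₀ ∈ E := hE.mem_of_tendsto hlim (Filter.Eventually.of_forall fun k => (hz k).1)
    refine ⟨hz₀, fun hdn => ?_⟩
    obtain ⟨a, ha, φ, hφ, hla⟩ := isCompact_Icc.tendsto_subseq
      (x := fun k => dn E (z k)) (s := Icc (0 : ℝ) 1)
      (fun k => ⟨dn_nonneg _ _, dn_le_one (hz k).1⟩)
    have hzl : Tendsto (fun k => z (φ k)) atTop (𝓝 z₀) := hlim.comp hφ.tendsto_atTop
    have hq : Tendsto (fun k => dn E (z (φ k)) • z (φ k)) atTop (𝓝 (a • z₀)) := hla.smul hzl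
    have hpos : ∀ k, 0 < dn E (z (φ k)) := fun k =>
      lt_of_le_of_ne (dn_nonneg _ _) (Ne.symm (hz (φ k)).2)
    have hpE : a • z₀ ∈ E := mem_of_dn_zero hE hz₀ hdn a ha
    obtain ⟨r, hr, hconv⟩ := lim_stuck H hpE
      (fun k => dn_spec hE (hz (φ k)).1 _ ⟨le_rfl, dn_le_one (hz (φ k)).1⟩)
      (fun k => stuck_dn hE (hz (φ k)).1 (hpos k)) hq
    obtain ⟨k, hk⟩ := (hq.eventually (ball_mem_nhds _ hr)).exists
    set e := dn E (z (φ k)) • z (φ k) with he
    have heE : e ∈ E := dn_spec hE (hz (φ k)).1 _ ⟨le_rfl, dn_le_one (hz (φ k)).1⟩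
    have hseg : ∀ u ∈ Icc (0 : ℝ) 1, a • z₀ + u • (e - a • z₀) ∈ E := by
      intro u hu
      have := hconv ⟨mem_ball_self hr, hpE⟩ ⟨hk, heE⟩ (by linarith [hu.2] : (0:ℝ) ≤ 1 - u) hu.1
        (by ring)
      have e2 : (1 - u) • a • z₀ + u • e = a • z₀ + u • (e - a • z₀) := by module
      rw [← e2]
      exact this.2
    have h3 := dn_zero_of_segment hE H h0 hseg (dn_smul_zero hE hz₀ hdn ha)
    obtain ⟨s, hs1, hs2⟩ := stuck_dn hE (hz (φ k)).1 (hpos k) 1 one_pos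
    exact hs2 (mem_of_dn_zero hE heE h3 _ ⟨by linarith [hs1.2], by linarith [hs1.1]⟩)
  intro w hw
  by_contra hne
  have h := isPreconnected_closed_iff.1 hconn A B hAcl hBcl
    (fun v hv => by
      by_cases h : dn E v = 0
      · exact Or.inl ⟨hv, h⟩
      · exact Or.inr ⟨hv, h⟩)
    ⟨0, h0, h0, dn_zero h0⟩ ⟨w, hw, hw, hne⟩
  obtain ⟨v, _, hv1, hv2⟩ := h
  exact hv2.2 hv1.2

end Pool.Agent.Q129.LNC
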