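import Pool.Agent.Q129.LNC.Chord

set_option autoImplicit false

open Set Metric Filter Topology
open scoped Pointwise

namespace Pool.Agent.Q129.LNC

variable {V : Type*} [NormedAddCommGroup V] [NormedSpace ℝ V]

/-- `x` is a point of local non-convexity of `E`: a boundary point of `E` such that
`B_r(x) ∩ E` is not convex for any `r > 0`. -/
def IsLNC (E : Set V) (x : V) : Prop :=
  x ∈ frontier E ∧ ∀ r > 0, ¬ Convex ℝ (ball x r ∩ E)

/-- `x` is clearly visible from `y` in `E`: for some `r > 0` the point `y` sees every point of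
`B_r(x) ∩ E`. -/
def ClearlyVisible (E : Set V) (x y : V) : Prop :=
  ∃ r > 0, ∀ p ∈ ball x r ∩ E, segment ℝ y p ⊆ E

/-- Property `C_n`: any `n` (not necessarily distinct) points of local non-convexity are all
clearly visible from one point of `E`. -/
def PropC (n : ℕ) (E : Set V) : Prop :=
  ∀ x : Fin n → V, (∀ i, IsLNC E (x i)) → ∃ y ∈ E, ∀ i, ClearlyVisible E (x i) y

/-- `E` is starshaped: some point of `E` sees every point of `E`. -/
def IsStarshaped (E : Set V) : Prop := ∃ y ∈ E, ∀ z ∈ E, segment ℝ y z ⊆ E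

theorem IsLNC.mem {E : Set V} (hE : IsClosed E) {x : V} (h : IsLNC E x) : x ∈ E :=
  hE.frontier_subset h.1

theorem isLNC_iff {E : Set V} (hE : IsClosed E) {x : V} :
    IsLNC E x ↔ x ∈ E ∧ ∀ r > 0, ¬ Convex ℝ (ball x r ∩ E) := by
  refine ⟨fun h => ⟨h.mem hE, h.2⟩, fun h => ⟨?_, h.2⟩⟩
  rw [hE.frontier_eq]
  refine ⟨h.1, fun hint => ?_⟩
  obtain ⟨r, hr, hsub⟩ := Metric.mem_nhds_iff.1 (mem_interior_iff_mem_nhds.1 hint)
  refine h.2 r hr ?_
  rw [inter_eq_left.2 hsub]
  exact convex_ball x r

theorem isClosed_lnc {E : Set V} (hE : IsClosed E) : IsClosed {x | IsLNC E x} := by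
  apply IsSeqClosed.isClosed
  intro z z₀ hz hlim
  have hz' : ∀ k, z k ∈ E ∧ ∀ r > 0, ¬ Convex ℝ (ball (z k) r ∩ E) := fun k =>
    (isLNC_iff hE).1 (hz k)
  refine (isLNC_iff hE).2
    ⟨hE.mem_of_tendsto hlim (Filter.Eventually.of_forall fun k => (hz' k).1), ?_⟩
  intro r hr hconv
  obtain ⟨k, hk⟩ := (hlim.eventually (ball_mem_nhds z₀ (half_pos hr))).exists
  refine (hz' k).2 (r / 2) (half_pos hr) ?_
  have hsub : ball (z k) (r / 2) ⊆ ball z₀ r := by
    intro v hv
    rw [mem_ball] at *
    calc dist v z₀ ≤ dist v (z k) + dist (z k) z₀ := dist_triangle _ _ _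
      _ < r := by linarith
  have : ball (z k) (r / 2) ∩ E = ball (z k) (r / 2) ∩ (ball z₀ r ∩ E) := by
    ext v
    simp only [mem_inter_iff]
    exact ⟨fun h => ⟨h.1, hsub h.1, h.2⟩, fun h => ⟨h.1, h.2.2⟩⟩
  rw [this]
  exact (convex_ball _ _).inter hconv

/-- Points of `E` from which every point of `B_δ(x) ∩ E` is seen. -/
def Vis (E : Set V) (δ : ℝ) (x : V) : Set V :=
  {y | y ∈ E ∧ ∀ p ∈ ball x δ ∩ E, segment ℝ y p ⊆ E}

theorem isClosed_vis {E : Set V} (hE : IsClosed E) (δ : ℝ) (x : V) : IsClosed (Vis E δ x) := by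
  apply IsSeqClosed.isClosed
  intro z z₀ hz hlim
  refine ⟨hE.mem_of_tendsto hlim (Filter.Eventually.of_forall fun k => (hz k).1), ?_⟩
  rintro p hp _ ⟨a, b, ha, hb, hab, rfl⟩
  have h1 : Tendsto (fun k => a • z k + b • p) atTop (𝓝 (a • z₀ + b • p)) :=
    (hlim.const_smul a).add tendsto_const_nhds
  exact hE.mem_of_tendsto h1 (Filter.Eventually.of_forall fun k =>
    (hz k).2 p hp ⟨a, b, ha, hb, hab, rfl⟩)

/-- Convex hulls of compact sets in finite dimension are compact. -/
theorem isCompact_hull [FiniteDimensional ℝ V] {S : Set V} (hS : IsCompact S) :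
    IsCompact (convexHull ℝ S) := by
  let n := Module.finrank ℝ V
  let Km : ℕ → Set V := fun m =>
    (fun p : (Fin m → ℝ) × (Fin m → V) => ∑ i, p.1 i • p.2 i) ''
      (stdSimplex ℝ (Fin m) ×ˢ (Set.univ.pi fun _ => S))
  have hK : ∀ m, IsCompact (Km m) := by
    intro m
    refine ((isCompact_stdSimplex ℝ (Fin m)).prod (isCompact_univ_pi fun _ => hS)).image ?_
    exact continuous_finsetSum _ fun i _ =>
      ((continuous_apply i).comp continuous_fst).smul ((continuous_apply i).comp continuous_snd)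
  have hU : convexHull ℝ S = ⋃ m ∈ Finset.range (n + 2), Km m := by
    apply Set.Subset.antisymm
    · intro x hx
      obtain ⟨ι, _, z, w, hz, hai, hw, hw1, hx'⟩ := eq_pos_convex_span_of_mem_convexHull hx
      have hc := hai.card_le_finrank_succ
      have hc' : Fintype.card ι ≤ n + 1 := by
        refine hc.trans ?_
        have := Submodule.finrank_le (vectorSpan ℝ (Set.range z))
        omega
      simp only [Set.mem_iUnion]
      refine ⟨Fintype.card ι, by simp; omega, ?_⟩
      let e := (Fintype.equivFin ι).symm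
      refine ⟨(fun i => w (e i), fun i => z (e i)), ⟨⟨fun i => (hw _).le, ?_⟩, ?_⟩, ?_⟩
      · show ∑ i, w (e i) = 1
        rw [← hw1]
        exact Equiv.sum_comp e w
      · intro i _
        exact hz ⟨_, rfl⟩
      · show ∑ i, w (e i) • z (e i) = x
        rw [← hx']
        exact Equiv.sum_comp e fun i => w i • z i
    · intro x hx
      simp only [Set.mem_iUnion] at hx
      obtain ⟨m, -, ⟨w, z⟩, ⟨⟨h0, h1⟩, hz⟩, rfl⟩ := hx
      exact (convex_convexHull ℝ S).sum_mem (fun i _ => h0 i) h1
        fun i _ => subset_convexHull ℝ S (hz i (Set.mem_univ i))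
  rw [hU]
  exact (Finset.range (n + 2)).isCompact_biUnion fun m _ => hK m

/-- Finitely many small moves towards points of `Vis E δ x` stay in `E`. -/
theorem moves {E : Set V} {δ : ℝ} {x : V} {q : V} (hq : q ∈ E) {D s₀ : ℝ} (hs₀ : s₀ < 1)
    (hD : 0 ≤ D) (hqx : dist q x + s₀ * D < δ) {ι : Type*} [DecidableEq ι] (z : ι → V)
    (t : Finset ι) :
    (∀ i ∈ t, z i ∈ Vis E δ x) → (∀ i ∈ t, ‖z i - q‖ ≤ D) →
    ∀ c : ι → ℝ, (∀ i ∈ t, 0 ≤ c i) → ∑ i ∈ t, c i ≤ s₀ →
      (1 - ∑ i ∈ t, c i) • q + ∑ i ∈ t, c i • z i ∈ E := by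
  induction t using Finset.induction_on with
  | empty => intro _ _ c _ _; simpa using hq
  | insert j t hj ih =>
    intro hz hDz c hc hsum
    rw [Finset.sum_insert hj] at hsum
    have hcj : 0 ≤ c j := hc j (Finset.mem_insert_self _ _)
    have hct : ∀ i ∈ t, 0 ≤ c i := fun i hi => hc i (Finset.mem_insert_of_mem hi)
    have hSt : 0 ≤ ∑ i ∈ t, c i := Finset.sum_nonneg hct
    have hcj1 : c j < 1 := by linarith
    have h1c : 0 < 1 - c j := by linarith
    set S : ℝ := ∑ i ∈ t, c i with hS
    set c' : ι → ℝ := fun i => c i / (1 - c j) with hc'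
    have hS' : ∑ i ∈ t, c' i = S / (1 - c j) := by
      simp only [hc', hS]; rw [Finset.sum_div]
    have hS'le : S / (1 - c j) ≤ s₀ := by
      rw [div_le_iff₀ h1c]
      nlinarith
    have hmem := ih (fun i hi => hz i (Finset.mem_insert_of_mem hi))
      (fun i hi => hDz i (Finset.mem_insert_of_mem hi)) c'
      (fun i hi => div_nonneg (hct i hi) h1c.le) (hS' ▸ hS'le)
    rw [hS'] at hmem
    set q' : V := (1 - S / (1 - c j)) • q + ∑ i ∈ t, c' i • z i with hq'
    have hdist : dist q' q ≤ s₀ * D := by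
      have e : q' - q = ∑ i ∈ t, c' i • (z i - q) := by
        rw [hq']
        simp only [smul_sub, Finset.sum_sub_distrib]
        rw [← Finset.sum_smul, hS']
        module
      rw [dist_eq_norm, e]
      calc ‖∑ i ∈ t, c' i • (z i - q)‖ ≤ ∑ i ∈ t, ‖c' i • (z i - q)‖ := norm_sum_le _ _
        _ ≤ ∑ i ∈ t, c' i * D := by
            refine Finset.sum_le_sum fun i hi => ?_
            have h0 : 0 ≤ c' i := div_nonneg (hct i hi) h1c.le
            rw [norm_smul, Real.norm_of_nonneg h0]
            exact mul_le_mul_of_nonneg_left (hDz i (Finset.mem_insert_of_mem hi)) h0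
        _ = S / (1 - c j) * D := by rw [← Finset.sum_mul, hS']
        _ ≤ s₀ * D := mul_le_mul_of_nonneg_right hS'le hD
    have hball : q' ∈ ball x δ ∩ E := by
      refine ⟨?_, hmem⟩
      rw [mem_ball]
      calc dist q' x ≤ dist q' q + dist q x := dist_triangle _ _ _
        _ < δ := by linarith
    have hsee := (hz j (Finset.mem_insert_self _ _)).2 q' hball
    have hfin : c j • z j + (1 - c j) • q' ∈ E :=
      hsee ⟨c j, 1 - c j, hcj, h1c.le, by ring, rfl⟩
    have e : (1 - ∑ i ∈ insert j t, c i) • q + ∑ i ∈ insert j t, c i • z i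
        = c j • z j + (1 - c j) • q' := by
      rw [Finset.sum_insert hj, Finset.sum_insert hj, hq', smul_add, Finset.smul_sum, smul_smul]
      have e1 : (1 - c j) * (1 - S / (1 - c j)) = 1 - (c j + S) := by field_simp; ring
      have e2 : ∀ i ∈ t, (1 - c j) • c' i • z i = c i • z i := fun i _ => by
        rw [smul_smul]; congr 1; simp only [hc']; field_simp
      rw [e1, Finset.sum_congr rfl e2]
      abel
    rw [e]
    exact hfin

/-- If `0` lies in the hull of the points seeing `B_δ(x) ∩ E`, then near `x` everything can be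
moved towards `0` by a uniform amount. -/
theorem loc_of_hull {E : Set V} {δ : ℝ} (hδ : 0 < δ) {x : V}
    (h0 : (0 : V) ∈ convexHull ℝ (Vis E δ x)) :
    ∃ r > 0, ∃ s₀ > 0, ∀ q ∈ ball x r ∩ E, ∀ s ∈ Icc (0 : ℝ) s₀, (1 - s) • q ∈ E := by
  classical
  rw [convexHull_eq] at h0
  obtain ⟨ι, t, w, z, hw0, hw1, hz, hsum⟩ := h0
  rw [Finset.centerMass_eq_of_sum_1 _ _ hw1] at hsum
  set D : ℝ := ∑ i ∈ t, ‖z i - x‖ + δ with hD
  have hD0 : 0 < D := by
    have : 0 ≤ ∑ i ∈ t, ‖z i - x‖ := Finset.sum_nonneg fun i _ => norm_nonneg _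
    linarith
  set s₀ : ℝ := min (1 / 2) (δ / (4 * D)) with hs₀
  have hs₀0 : 0 < s₀ := lt_min (by norm_num) (by positivity)
  have hs₀1 : s₀ < 1 := (min_le_left _ _).trans_lt (by norm_num)
  have hs₀D : s₀ * D ≤ δ / 4 := by
    have : s₀ ≤ δ / (4 * D) := min_le_right _ _
    calc s₀ * D ≤ δ / (4 * D) * D := mul_le_mul_of_nonneg_right this hD0.le
      _ = δ / 4 := by field_simp
  refine ⟨δ / 2, by linarith, s₀, hs₀0, ?_⟩
  rintro q ⟨hq, hqE⟩ s hs
  rw [mem_ball] at hq
  have hDz : ∀ i ∈ t, ‖z i - q‖ ≤ D := by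
    intro i hi
    have h1 : ‖z i - x‖ ≤ ∑ i ∈ t, ‖z i - x‖ :=
      Finset.single_le_sum (f := fun i => ‖z i - x‖) (fun i _ => norm_nonneg _) hi
    have h2 : ‖z i - q‖ ≤ ‖z i - x‖ + ‖x - q‖ := by
      have : z i - q = (z i - x) + (x - q) := by abel
      rw [this]; exact norm_add_le _ _
    have h3 : ‖x - q‖ < δ / 2 := by rw [← dist_eq_norm, dist_comm]; exact hq
    linarith
  have h := moves (δ := δ) (x := x) hqE hs₀1 hD0.le (by linarith) z t hz hDz
    (fun i => s * w i) (fun i hi => mul_nonneg hs.1 (hw0 i hi))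
    (by rw [← Finset.mul_sum, hw1, mul_one]; exact hs.2)
  have e : ∑ i ∈ t, (s * w i) • z i = 0 := by
    have : ∑ i ∈ t, (s * w i) • z i = s • ∑ i ∈ t, w i • z i := by
      rw [Finset.smul_sum]; simp only [smul_smul]
    rw [this, hsum, smul_zero]
  rw [e, ← Finset.mul_sum, hw1, mul_one, add_zero] at h
  exact h

/-- Under `C_n` the radius of clear visibility can be chosen uniformly. -/
theorem uniform {E : Set V} (hEc : IsCompact E) {n : ℕ} (hC : PropC n E) :
    ∃ δ > 0, ∀ x : Fin n → V, (∀ i, IsLNC E (x i)) → ∃ y, ∀ i, y ∈ Vis E δ (x i) := by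
  by_contra hcon
  push Not at hcon
  have hE := hEc.isClosed
  choose! x hx hbad using fun k : ℕ => hcon (1 / ((k : ℝ) + 1)) (by positivity)
  have hΛ : IsCompact {v | IsLNC E v} :=
    hEc.of_isClosed_subset (isClosed_lnc hE) fun v hv => IsLNC.mem hE hv
  obtain ⟨a, ha, φ, hφ, hlim⟩ := (isCompact_univ_pi fun _ : Fin n => hΛ).tendsto_subseq
    (x := x) (fun k => by
      intro i _
      exact hx k i)
  have ha' : ∀ i, IsLNC E (a i) := fun i => ha i (mem_univ i)
  obtain ⟨y, hyE, hy⟩ := hC a ha'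
  choose r hr hvis using hy
  have hkr : ∀ i, ∀ᶠ k in atTop, ball (x (φ k) i) (1 / ((φ k : ℝ) + 1)) ⊆ ball (a i) (r i) := by
    intro i
    have h1 : Tendsto (fun k => x (φ k) i) atTop (𝓝 (a i)) :=
      (tendsto_pi_nhds.1 hlim) i
    have h2 : ∀ᶠ k in atTop, x (φ k) i ∈ ball (a i) (r i / 2) :=
      h1.eventually (ball_mem_nhds _ (half_pos (hr i)))
    have h3 : Tendsto (fun k => 1 / ((φ k : ℝ) + 1)) atTop (𝓝 0) :=
      tendsto_one_div_add_atTop_nhds_zero_nat.comp hφ.tendsto_atTop
    have h4 : ∀ᶠ k in atTop, 1 / ((φ k : ℝ) + 1) < r i / 2 :=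
      h3.eventually (gt_mem_nhds (half_pos (hr i)))
    filter_upwards [h2, h4] with k h5 h6 v hv
    rw [mem_ball] at *
    calc dist v (a i) ≤ dist v (x (φ k) i) + dist (x (φ k) i) (a i) := dist_triangle _ _ _
      _ < r i := by linarith
  obtain ⟨k, hk⟩ := (Filter.eventually_all.2 hkr).exists
  obtain ⟨i, hi⟩ := hbad (φ k) y
  exact hi ⟨hyE, fun p hp => hvis i p ⟨hk i hp.1, hp.2⟩⟩

/-- Helly: a point common to all hulls of the uniform visibility regions. -/
theorem exists_center [FiniteDimensional ℝ V] {E : Set V} (hEc : IsCompact E)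
    (hC : PropC (Module.finrank ℝ V + 1) E) :
    ∃ δ > 0, ∃ c : V, ∀ x, IsLNC E x → c ∈ convexHull ℝ (Vis E δ x) := by
  obtain ⟨δ, hδ, h⟩ := uniform hEc hC
  refine ⟨δ, hδ, ?_⟩
  have hE := hEc.isClosed
  have hne : (⋂ x : {x // IsLNC E x}, convexHull ℝ (Vis E δ x.1)).Nonempty := by
    refine Convex.helly_theorem_compact' (𝕜 := ℝ) (fun x => convex_convexHull ℝ _)
      (fun x => isCompact_hull
        (hEc.of_isClosed_subset (isClosed_vis hE δ x.1) fun v hv => hv.1)) ?_
    intro I hI
    rcases I.eq_empty_or_nonempty with rfl | ⟨i₀, hi₀⟩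
    · simp
    · -- enumerate `I` by `Fin (d + 1)`
      have hcard : Fintype.card I ≤ Fintype.card (Fin (Module.finrank ℝ V + 1)) := by
        simpa using hI
      obtain ⟨g⟩ := Function.Embedding.nonempty_of_card_le hcard
      classical
      let f : Fin (Module.finrank ℝ V + 1) → {x // IsLNC E x} := fun k =>
        if hk : ∃ i : I, g i = k then (hk.choose : {x // IsLNC E x}) else i₀
      have hf : ∀ i : I, f (g i) = i := by
        intro i
        have hk : ∃ j : I, g j = g i := ⟨i, rfl⟩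
        have h1 : f (g i) = (hk.choose : {x // IsLNC E x}) := dif_pos hk
        rw [h1, g.injective hk.choose_spec]
      obtain ⟨y, hy⟩ := h (fun k => (f k).1) (fun k => (f k).2)
      refine ⟨y, ?_⟩
      simp only [mem_iInter]
      intro i hi
      apply subset_convexHull
      have := hy (g ⟨i, hi⟩)
      rw [hf ⟨i, hi⟩] at this
      exact this
  obtain ⟨c, hc⟩ := hne
  exact ⟨c, fun x hx => mem_iInter.1 hc ⟨x, hx⟩⟩

/-- `Loc` for the translate of `E` by `-c`, given the Helly point `c`. -/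
theorem loc_translate {E : Set V} (hE : IsClosed E) {δ : ℝ} (hδ : 0 < δ) {c : V}
    (hc : ∀ x, IsLNC E x → c ∈ convexHull ℝ (Vis E δ x)) :
    Loc ((fun v => v + c) ⁻¹' E) := by
  intro p hp
  by_cases hlnc : IsLNC E (p + c)
  · right
    apply loc_of_hull hδ
    have h1 := hc _ hlnc
    have h2 : Vis E δ (p + c) = (fun v => v + c) '' Vis ((fun v => v + c) ⁻¹' E) δ p := by
      ext y
      simp only [mem_image]
      constructor
      · rintro ⟨hy1, hy2⟩
        refine ⟨y - c, ⟨by simpa using hy1, ?_⟩, by simp⟩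
        rintro q ⟨hq1, hq2⟩ v ⟨a, b, ha, hb, hab, rfl⟩
        show a • (y - c) + b • q + c ∈ E
        have hq3 : q + c ∈ ball (p + c) δ ∩ E := ⟨by simpa using hq1, hq2⟩
        have := hy2 _ hq3 ⟨a, b, ha, hb, hab, rfl⟩
        have e : a • (y - c) + b • q + c = a • y + b • (q + c) := by
          have : (1 : ℝ) • c = (a + b) • c := by rw [hab]
          rw [one_smul] at this
          calc a • (y - c) + b • q + c = a • (y - c) + b • q + (a + b) • c := by rw [← this]
            _ = a • y + b • (q + c) := by module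
        rw [e]; exact this
      · rintro ⟨w, ⟨hw1, hw2⟩, rfl⟩
        refine ⟨hw1, ?_⟩
        rintro q ⟨hq1, hq2⟩ v ⟨a, b, ha, hb, hab, rfl⟩
        have hq3 : q - c ∈ ball p δ ∩ ((fun v => v + c) ⁻¹' E) :=
          ⟨by
            rw [mem_ball] at *
            rw [dist_eq_norm] at *
            have : q - c - p = q - (p + c) := by abel
            rwa [this], by simpa using hq2⟩
        have h3 := hw2 _ hq3 ⟨a, b, ha, hb, hab, rfl⟩
        have h4 : a • w + b • (q - c) + c ∈ E := h3
        have e : a • w + b • (q - c) + c = a • (w + c) + b • q := by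
          have : (1 : ℝ) • c = (a + b) • c := by rw [hab]
          rw [one_smul] at this
          calc a • w + b • (q - c) + c = a • w + b • (q - c) + (a + b) • c := by rw [← this]
            _ = a • (w + c) + b • q := by module
        rw [← e]; exact h4
    rw [h2] at h1
    have h3 : (fun v : V => v + c) = fun v => c + v := by funext v; exact add_comm _ _
    have h4 : (fun v => v + c) '' Vis ((fun v => v + c) ⁻¹' E) δ p
        = ({c} : Set V) + Vis ((fun v => v + c) ⁻¹' E) δ p := by
      rw [Set.singleton_add]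
      ext v; simp [add_comm]
    rw [h4, convexHull_add, convexHull_singleton, Set.singleton_add] at h1
    obtain ⟨w, hw, hw2⟩ := h1
    have hw3 : w = 0 := by simpa using hw2
    rwa [hw3] at hw
  · left
    rw [isLNC_iff hE] at hlnc
    push Not at hlnc
    obtain ⟨r, hr, hconv⟩ := hlnc hp
    refine ⟨r, hr, ?_⟩
    have e : ball p r ∩ (fun v => v + c) ⁻¹' E = (fun v => v + c) ⁻¹' (ball (p + c) r ∩ E) := by
      ext v
      simp
    rw [e]
    exact hconv.translate_preimage_left c

/-- **Main theorem** in a finite-dimensional normed space of dimension `d`: property `C_{d+1}`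
implies that a compact connected set is starshaped. -/
theorem main [FiniteDimensional ℝ V] {E : Set V} (hEc : IsCompact E) (hconn : IsConnected E)
    (hC : PropC (Module.finrank ℝ V + 1) E) : IsStarshaped E := by
  have hE := hEc.isClosed
  -- from a centre to starshapedness
  have key : ∀ c : V, Loc ((fun v => v + c) ⁻¹' E) → c ∈ E → IsStarshaped E := by
    intro c hloc hcE
    have hcl : IsClosed ((fun v => v + c) ⁻¹' E) := hE.preimage (continuous_add_const c)
    have hpre : IsPreconnected ((fun v => v + c) ⁻¹' E) := by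
      have : (fun v => v + c) ⁻¹' E = (fun v => v - c) '' E := by
        ext v
        simp only [mem_preimage, mem_image]
        exact ⟨fun h => ⟨v + c, h, by simp⟩, by rintro ⟨w, hw, rfl⟩; simpa using hw⟩
      rw [this]
      exact hconn.isPreconnected.image _ (by fun_prop)
    have h0 : (0 : V) ∈ (fun v => v + c) ⁻¹' E := by simpa using hcE
    have hst := star_of_mem hcl hpre hloc h0
    refine ⟨c, hcE, ?_⟩
    rintro z hz _ ⟨a, b, ha, hb, hab, rfl⟩
    have hz' : z - c ∈ (fun v => v + c) ⁻¹' E := by simpa using hz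
    have h1 := mem_of_dn_zero hcl hz' (hst _ hz') b ⟨hb, by linarith⟩
    have h2 : b • (z - c) + c ∈ E := h1
    have e : b • (z - c) + c = a • c + b • z := by
      have : (1 : ℝ) • c = (a + b) • c := by rw [hab]
      rw [one_smul] at this
      calc b • (z - c) + c = b • (z - c) + (a + b) • c := by rw [← this]
        _ = a • c + b • z := by module
    rw [← e]; exact h2
  by_cases hΛ : ∃ x, IsLNC E x
  · obtain ⟨x, hx⟩ := hΛ
    obtain ⟨δ, hδ, c, hc⟩ := exists_center hEc hC
    have hloc := loc_translate hE hδ hc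
    refine key c hloc ?_
    have hcl : IsClosed ((fun v => v + c) ⁻¹' E) := hE.preimage (continuous_add_const c)
    have hxE : x ∈ E := hx.mem hE
    have hx' : x - c ∈ (fun v => v + c) ⁻¹' E := by simpa using hxE
    -- hull of the translated region
    have h0 : (0 : V) ∈ convexHull ℝ ((fun v => v - c) '' Vis E δ x) := by
      have h4 : (fun v => v - c) '' Vis E δ x = ({-c} : Set V) + Vis E δ x := by
        rw [Set.singleton_add]
        ext v; simp [sub_eq_neg_add]
      rw [h4, convexHull_add, convexHull_singleton, Set.singleton_add]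
      exact ⟨c, hc x hx, by simp⟩
    have hmem := mem_of_hull hcl hloc hx' (K := (fun v => v - c) '' Vis E δ x) ?_ h0
    · simpa using hmem
    · rintro _ ⟨y, hy, rfl⟩ u hu
      show x - c + u • (y - c - (x - c)) + c ∈ E
      have := hy.2 x ⟨mem_ball_self hδ, hxE⟩ ⟨u, 1 - u, hu.1, by linarith [hu.2], by ring, rfl⟩
      have e : x - c + u • (y - c - (x - c)) + c = u • y + (1 - u) • x := by module
      rw [e]; exact this
  · push Not at hΛ
    obtain ⟨c, hcE⟩ := hconn.nonempty
    exact key c (loc_translate hE one_pos fun x hx => absurd hx (hΛ x)) hcE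

end Pool.Agent.Q129.LNC
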